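import Mathlib
import Pool.Agent.H48.MxB

set_option autoImplicit false

namespace Pool.Agent.Results.MP_521103_al.Yes

open Matrix Pool.Agent.H48.MxB

section Defs
variable (A : Type) [NonUnitalCommRing A] [Module ℂ A]

/-- `g(A) = sl_2 ⊗ A`, realised as the traceless `2 × 2` matrices over `A`. -/
def sl2 : Submodule ℂ (Matrix (Fin 2) (Fin 2) A) where
  carrier := {X | X.trace = 0}
  add_mem' := by
    intro X Y hX hY
    simp only [Set.mem_ofPred_eq] at *
    rw [trace_add, hX, hY, add_zero]
  zero_mem' := by simp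
  smul_mem' := by
    intro c X hX
    simp only [Set.mem_ofPred_eq] at *
    rw [trace_smul, hX, smul_zero]

variable {A}

/-- The Lie bracket of `g(A)`. -/
def br (X Y : sl2 A) : sl2 A :=
  ⟨X.1 * Y.1 - Y.1 * X.1, by
    change Matrix.trace _ = 0
    rw [trace_sub, trace_mul_comm, sub_self]⟩

/-- `e ⊗ a`. -/
def eM (a : A) : sl2 A := ⟨!![0, a; 0, 0], by change Matrix.trace _ = 0; simp⟩

/-- `h ⊗ a`. -/
def hM (a : A) : sl2 A := ⟨!![a, 0; 0, -a], by change Matrix.trace _ = 0; simp⟩

/-- The real form `k_A = su_2 ⊗ A_ℝ`: the skew-hermitian elements of `g(A)`. -/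
def kA [Star A] : Set (sl2 A) := {X | X.1ᴴ = -X.1}

end Defs

section Aux
variable {A : Type} [NonUnitalCommRing A] [Module ℂ A]

def fM (a : A) : sl2 A := ⟨!![0, 0; a, 0], by change Matrix.trace _ = 0; simp⟩

def eL : A →ₗ[ℂ] sl2 A where
  toFun := eM
  map_add' a b := by apply Subtype.ext; ext i j; fin_cases i <;> fin_cases j <;> simp [eM]
  map_smul' c a := by apply Subtype.ext; ext i j; fin_cases i <;> fin_cases j <;> simp [eM]

def fL : A →ₗ[ℂ] sl2 A where
  toFun := fM
  map_add' a b := by apply Subtype.ext; ext i j; fin_cases i <;> fin_cases j <;> simp [fM]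
  map_smul' c a := by apply Subtype.ext; ext i j; fin_cases i <;> fin_cases j <;> simp [fM]

def hL : A →ₗ[ℂ] sl2 A where
  toFun := hM
  map_add' a b := by
    apply Subtype.ext; ext i j; fin_cases i <;> fin_cases j <;> simp [hM, add_comm]
  map_smul' c a := by apply Subtype.ext; ext i j; fin_cases i <;> fin_cases j <;> simp [hM]

theorem br_he (a b : A) : br (hM a) (eM b) = eM (a * b) + eM (a * b) := by
  apply Subtype.ext; ext i j
  fin_cases i <;> fin_cases j <;> simp [br, hM, eM, mul_comm]

theorem br_hf (a b : A) : br (hM a) (fM b) = -(fM (a * b) + fM (a * b)) := by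
  apply Subtype.ext; ext i j
  fin_cases i <;> fin_cases j <;> simp [br, hM, fM, mul_comm, sub_eq_add_neg]

theorem br_ef (a b : A) : br (eM a) (fM b) = hM (a * b) := by
  apply Subtype.ext; ext i j
  fin_cases i <;> fin_cases j <;> simp [br, hM, fM, eM, mul_comm]

theorem br_hh (a b : A) : br (hM a) (hM b) = 0 := by
  apply Subtype.ext; ext i j
  fin_cases i <;> fin_cases j <;> simp [br, hM, mul_comm]

theorem br_ee (a b : A) : br (eM a) (eM b) = 0 := by
  apply Subtype.ext; ext i j
  fin_cases i <;> fin_cases j <;> simp [br, eM]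

theorem br_ff (a b : A) : br (fM a) (fM b) = 0 := by
  apply Subtype.ext; ext i j
  fin_cases i <;> fin_cases j <;> simp [br, fM]

theorem pw_eq [IsScalarTower ℂ A A] [SMulCommClass ℂ A A] (a : A) (n : ℕ) :
    (a : Unitization ℂ A) ^ (n + 1) = ((Rep.pw a n : A) : Unitization ℂ A) := by
  induction n with
  | zero => simp [Rep.pw]
  | succ n ih => rw [pow_succ, ih, Rep.pw_succ, Unitization.inr_mul]

variable [StarRing A] [StarModule ℂ A]

def ct (X : sl2 A) : sl2 A :=
  ⟨X.1ᴴ, by
    change Matrix.trace _ = 0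
    have h : X.1.trace = 0 := X.2
    rw [trace_conjTranspose, h, star_zero]⟩

noncomputable def k1 (X : sl2 A) : sl2 A := (1 / 2 : ℂ) • (X - ct X)
noncomputable def k2 (X : sl2 A) : sl2 A := (-Complex.I / 2 : ℂ) • (X + ct X)

theorem k1_mem (X : sl2 A) : k1 X ∈ kA := by
  change ((1 / 2 : ℂ) • (X.1 - X.1ᴴ))ᴴ = -((1 / 2 : ℂ) • (X.1 - X.1ᴴ))
  rw [conjTranspose_smul, conjTranspose_sub, conjTranspose_conjTranspose, ← smul_neg, neg_sub]
  congr 1
  simp

theorem k2_mem (X : sl2 A) : k2 X ∈ kA := by
  change ((-Complex.I / 2 : ℂ) • (X.1 + X.1ᴴ))ᴴ = -((-Complex.I / 2 : ℂ) • (X.1 + X.1ᴴ))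
  rw [conjTranspose_smul, conjTranspose_add, conjTranspose_conjTranspose, ← neg_smul, add_comm]
  congr 1
  simp [neg_div]

omit [StarModule ℂ A] in
theorem k_dec (X : sl2 A) : X = k1 X + Complex.I • k2 X := by
  have h : Complex.I * (-Complex.I / 2) = 1 / 2 := by
    rw [mul_div_assoc', mul_neg, Complex.I_mul_I]; norm_num
  unfold k1 k2
  rw [smul_smul, h]
  module

omit [StarModule ℂ A] in
theorem ct_dec (X : sl2 A) : ct X = -k1 X + Complex.I • k2 X := by
  have h : Complex.I * (-Complex.I / 2) = 1 / 2 := by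
    rw [mul_div_assoc', mul_neg, Complex.I_mul_I]; norm_num
  unfold k1 k2
  rw [smul_smul, h]
  module

omit [StarModule ℂ A] in
theorem ct_f (a : A) : ct (fM a) = eM (star a) := by
  apply Subtype.ext; ext i j
  fin_cases i <;> fin_cases j <;> simp [ct, eM, fM]

omit [StarRing A] [StarModule ℂ A] in
theorem br_exp [IsScalarTower ℂ A A] [SMulCommClass ℂ A A] (X1 X2 Y1 Y2 : sl2 A) (c : ℂ) :
    br (X1 + c • X2) (Y1 + c • Y2)
      = br X1 Y1 + c • br X1 Y2 + c • br X2 Y1 + c • c • br X2 Y2 := by
  apply Subtype.ext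
  simp only [br, Submodule.coe_add, Submodule.coe_smul, Matrix.add_mul, Matrix.mul_add,
    Matrix.smul_mul, Matrix.mul_smul, smul_sub, smul_add]
  abel

end Aux

theorem result (A : Type) [NonUnitalCommRing A] [Module ℂ A] [IsScalarTower ℂ A A]
    [SMulCommClass ℂ A A] [StarRing A] [StarModule ℂ A] [TopologicalSpace A]
    [IsTopologicalRing A] [ContinuousSMul ℂ A] [ContinuousStar A]
    (ex : A → A)
    (hex : ∀ a : A, HasSum (fun n : ℕ => (((n + 1).factorial : ℂ)⁻¹) •
      ((a : Unitization ℂ A) ^ (n + 1)).snd) (ex a))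
    (H : Type) [NormedAddCommGroup H] [InnerProductSpace ℂ H] [CompleteSpace H]
    (π : sl2 A →ₗ[ℂ] (H →L[ℂ] H))
    (hcont : ContinuousOn π kA)
    (hskew : ∀ X ∈ kA, ContinuousLinearMap.adjoint (π X) = -π X)
    (hlie : ∀ X ∈ kA, ∀ Y ∈ kA, π (br X Y) = π X * π Y - π Y * π X)
    (v : H) (hv : v ≠ 0) (hE : ∀ a, π (eM a) v = 0)
    (lam : A →ₗ[ℂ] ℂ) (hlam : ∀ a, π (hM a) v = lam a • v) :
    ∃ F : Unitization ℂ A → ℂ,
      Continuous (fun a : A => F (1 + a)) ∧
      (∀ a b : A, Differentiable ℂ fun t : ℂ => F (1 + ((a + t • b : A) : Unitization ℂ A))) ∧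
      (∀ a b : A, F ((1 + a) * (1 + b)) = F (1 + a) * F (1 + b)) ∧
      ∀ a : A, F (1 + ex a) = Complex.exp (lam a) := by
  have hπ : ∀ X, π X = π (k1 X) + Complex.I • π (k2 X) := by
    intro X
    conv_lhs => rw [k_dec X]
    rw [map_add, map_smul]
  have hL' : ∀ X Y, π X * π Y - π Y * π X = π (br X Y) := by
    intro X Y
    conv_rhs => rw [k_dec X, k_dec Y]
    rw [br_exp, hπ X, hπ Y]
    simp only [map_add, map_smul, hlie _ (k1_mem X) _ (k1_mem Y), hlie _ (k1_mem X) _ (k2_mem Y),
      hlie _ (k2_mem X) _ (k1_mem Y), hlie _ (k2_mem X) _ (k2_mem Y), add_mul, mul_add,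
      smul_mul_assoc, mul_smul_comm, smul_sub, smul_add]
    abel
  have hct : Continuous (ct : sl2 A → sl2 A) :=
    Continuous.subtype_mk (continuous_subtype_val.matrix_conjTranspose) _
  have hk1 : Continuous (k1 : sl2 A → sl2 A) :=
    (continuous_id.sub hct).const_smul (1 / 2 : ℂ)
  have hk2 : Continuous (k2 : sl2 A → sl2 A) :=
    (continuous_id.add hct).const_smul (-Complex.I / 2 : ℂ)
  have hc : Continuous π := by
    have : (π : sl2 A → (H →L[ℂ] H)) = fun X => π (k1 X) + Complex.I • π (k2 X) := funext hπ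
    rw [this]
    exact (hcont.comp_continuous hk1 k1_mem).add
      ((hcont.comp_continuous hk2 k2_mem).const_smul Complex.I)
  have hadj : ∀ X, ContinuousLinearMap.adjoint (π X) = π (ct X) := by
    intro X
    rw [hπ X, ct_dec, map_add, map_add, map_neg, LinearIsometryEquiv.map_smulₛₗ, π.map_smul,
      hskew _ (k1_mem X), hskew _ (k2_mem X)]
    simp
  have hvv : (inner ℂ v v : ℂ) ≠ 0 := by simpa using hv
  let φ : (H →L[ℂ] H) →L[ℂ] ℂ :=
    (inner ℂ v v : ℂ)⁻¹ • ((innerSL ℂ v).comp (ContinuousLinearMap.apply ℂ H v))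
  have hφ : ∀ T, φ T = (inner ℂ v v : ℂ)⁻¹ * inner ℂ v (T v) := fun T => rfl
  let R : Rep A (H →L[ℂ] H) :=
    { E := π ∘ₗ eL
      F := π ∘ₗ fL
      H := π ∘ₗ hL
      lam := lam
      φ := φ
      he := fun a b => by
        change π (hM a) * π (eM b) - π (eM b) * π (hM a) = π (eM _) + π (eM _)
        rw [hL', br_he, map_add]
      hf := fun a b => by
        change π (hM a) * π (fM b) - π (fM b) * π (hM a) = -(π (fM _) + π (fM _))
        rw [hL', br_hf, map_neg, map_add]
      ef := fun a b => by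
        change π (eM a) * π (fM b) - π (fM b) * π (eM a) = π (hM _)
        rw [hL', br_ef]
      hh := fun a b => by
        change π (hM a) * π (hM b) - π (hM b) * π (hM a) = 0
        rw [hL', br_hh, map_zero]
      ee := fun a b => by
        change π (eM a) * π (eM b) - π (eM b) * π (eM a) = 0
        rw [hL', br_ee, map_zero]
      ff := fun a b => by
        change π (fM a) * π (fM b) - π (fM b) * π (fM a) = 0
        rw [hL', br_ff, map_zero]
      φ1 := by rw [hφ]; exact inv_mul_cancel₀ hvv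
      φE := fun T a => by
        rw [hφ]
        change _ * inner ℂ v (T (π (eM a) v)) = 0
        rw [hE]; simp
      φF := fun T a => by
        rw [hφ]
        change _ * inner ℂ v (π (fM a) (T v)) = 0
        rw [← ContinuousLinearMap.adjoint_inner_left, hadj, ct_f, hE]; simp
      φH := fun T a => by
        rw [hφ, hφ]
        change _ * inner ℂ v (T (π (hM a) v)) = _
        rw [hlam, map_smul, inner_smul_right]; ring }
  have he : Continuous (eM : A → sl2 A) := by
    refine Continuous.subtype_mk (continuous_matrix fun i j => ?_) _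
    fin_cases i <;> fin_cases j <;> simp <;> fun_prop
  have hf : Continuous (fM : A → sl2 A) := by
    refine Continuous.subtype_mk (continuous_matrix fun i j => ?_) _
    fin_cases i <;> fin_cases j <;> simp <;> fun_prop
  have hh : Continuous (hM : A → sl2 A) := by
    refine Continuous.subtype_mk (continuous_matrix fun i j => ?_) _
    fin_cases i <;> fin_cases j <;> simp <;> fun_prop
  have hN : Continuous R.N := by
    change Continuous fun a => π (hM a) + π (eM a) - π (fM a)
    exact ((hc.comp hh).add (hc.comp he)).sub (hc.comp hf)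
  have hex' : ∀ a, HasSum (fun n : ℕ => (((n + 1).factorial : ℂ)⁻¹) • Rep.pw a n) (ex a) := by
    intro a
    have := hex a
    simp only [pw_eq, Unitization.snd_inr] at this
    exact this
  have hs : ∀ a : A, ((1 : Unitization ℂ A) + a).snd = a := fun a => by simp
  refine ⟨fun u => R.Φ u.snd, ?_, ?_, ?_, ?_⟩
  · simp only [hs]; exact R.contΦ hN
  · intro a b; simp only [hs]; exact R.diffΦ a b
  · intro a b
    have : (((1 : Unitization ℂ A) + a) * (1 + b)).snd = a + b + a * b := by
      simp [add_comm]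
    simp only [hs, this]; exact R.mult a b
  · intro a; simp only [hs]; exact R.expo hN ex hex' a

end Pool.Agent.Results.MP_521103_al.Yes
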